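import Pool.Agent.Helper13.TW.StB

/-! # Project TW, module WD: winding numbers of simple closed curves -/

set_option autoImplicit false

namespace Pool.Agent.Helper86.TW

open Set Topology Pool.Agent.Helper13.TR Pool.Agent.Helper13.TW

/-- the four rules of winding numbers which are used -/
private structure Rul {S : Type} [TopologicalSpace S] (ω : S → Ch S 2 → ℤ) (V : Set S) : Prop where
  mono : ∀ (A B : Set S) (n : ℕ), A ⊆ B → ∀ c ∈ cin A n, c ∈ cin B n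
  arc : ∀ (D : Set S) (p q : S), IsArc D p q →
    (∀ z ∈ cin D 1, bd 0 z = 0 → ∃ f ∈ cin D 2, bd 1 f = z) ∧
    dch D p q ∈ cin D 1 ∧ bd 0 (dch D p q) = Finsupp.single (pt q) 1 - Finsupp.single (pt p) 1
  bv : ∀ z ∈ cin V 1, bd 0 z = 0 → ∃ e : Ch S 2, bd 1 e = z
  ad : ∀ (z z' : Ch S 1) (x : S), (∃ e : Ch S 2, bd 1 e = z) → (∃ e : Ch S 2, bd 1 e = z') →
    z ∈ cin {x}ᶜ 1 → z' ∈ cin {x}ᶜ 1 → W ω (z + z') x = W ω z x + W ω z' x
  ng : ∀ (z : Ch S 1) (x : S), (∃ e : Ch S 2, bd 1 e = z) → z ∈ cin {x}ᶜ 1 →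
    W ω (-z) x = -W ω z x
  nl : ∀ (e : Ch S 2) (Q : Set S), e ∈ cin Q 2 → ∀ x ∉ Q, W ω (bd 1 e) x = 0

section rules

variable {S : Type} [TopologicalSpace S] {ω : S → Ch S 2 → ℤ} {V : Set S}

omit [TopologicalSpace S] in
private theorem sub_cmp {D : Set S} {x : S} (h : x ∉ D) : D ⊆ {x}ᶜ := by
  intro y hy hxy
  rw [mem_singleton_iff] at hxy
  rw [hxy] at hy
  exact h hy

private theorem ex_WD (R : Rul ω V) {D₁ D₂ : Set S} (hV1 : D₁ ⊆ V) (hV2 : D₂ ⊆ V)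
    {d₁ d₂ : Ch S 1} (hd₁ : d₁ ∈ cin D₁ 1) (hd₂ : d₂ ∈ cin D₂ 1) (hb : bd 0 d₁ = bd 0 d₂) :
    ∃ e : Ch S 2, bd 1 e = d₁ - d₂ :=
  R.bv _ (Submodule.sub_mem _ (R.mono _ _ _ hV1 _ hd₁) (R.mono _ _ _ hV2 _ hd₂))
    (by rw [map_sub, hb, sub_self])

private theorem cx_WD (R : Rul ω V) {D₁ D₂ : Set S} {x : S} (h1 : x ∉ D₁) (h2 : x ∉ D₂)
    {d₁ d₂ : Ch S 1} (hd₁ : d₁ ∈ cin D₁ 1) (hd₂ : d₂ ∈ cin D₂ 1) : d₁ - d₂ ∈ cin {x}ᶜ 1 :=
  Submodule.sub_mem _ (R.mono _ _ _ (sub_cmp h1) _ hd₁) (R.mono _ _ _ (sub_cmp h2) _ hd₂)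

private theorem p1_WD (R : Rul ω V) (D₁ D₂ : Set S) (p q : S) (h1 : IsArc D₁ p q)
    (h2 : IsArc D₂ p q) (hV1 : D₁ ⊆ V) (hV2 : D₂ ⊆ V) (d₁ : Ch S 1) (hd₁ : d₁ ∈ cin D₁ 1)
    (d₂ : Ch S 1) (hd₂ : d₂ ∈ cin D₂ 1)
    (hb₁ : bd 0 d₁ = Finsupp.single (pt q) 1 - Finsupp.single (pt p) 1)
    (hb₂ : bd 0 d₂ = Finsupp.single (pt q) 1 - Finsupp.single (pt p) 1)
    (x : S) (hx1 : x ∉ D₁) (hx2 : x ∉ D₂) : W ω (d₁ - d₂) x = wd ω D₁ D₂ p q x := by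
  obtain ⟨ac1, dc1, db1⟩ := R.arc D₁ p q h1
  obtain ⟨ac2, dc2, db2⟩ := R.arc D₂ p q h2
  obtain ⟨f1, hf1, e1⟩ := ac1 (d₁ - dch D₁ p q) (Submodule.sub_mem _ hd₁ dc1)
    (by rw [map_sub, hb₁, db1, sub_self])
  obtain ⟨f2, hf2, e2⟩ := ac2 (d₂ - dch D₂ p q) (Submodule.sub_mem _ hd₂ dc2)
    (by rw [map_sub, hb₂, db2, sub_self])
  have e : d₁ - d₂ = (dch D₁ p q - dch D₂ p q) + bd 1 (f1 - f2) := by
    rw [map_sub, e1, e2]
    abel
  have hc' : bd 1 (f1 - f2) ∈ cin {x}ᶜ 1 := by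
    rw [map_sub, e1, e2]
    exact Submodule.sub_mem _ (Submodule.sub_mem _ (R.mono _ _ _ (sub_cmp hx1) _ hd₁)
      (R.mono _ _ _ (sub_cmp hx1) _ dc1)) (Submodule.sub_mem _ (R.mono _ _ _ (sub_cmp hx2) _ hd₂)
      (R.mono _ _ _ (sub_cmp hx2) _ dc2))
  have hQ : f1 - f2 ∈ cin (D₁ ∪ D₂) 2 := Submodule.sub_mem _
    (R.mono _ _ _ subset_union_left _ hf1) (R.mono _ _ _ subset_union_right _ hf2)
  have hxQ : x ∉ D₁ ∪ D₂ := by
    rintro (h | h)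
    · exact hx1 h
    · exact hx2 h
  rw [e, R.ad _ _ x (ex_WD R hV1 hV2 dc1 dc2 (by rw [db1, db2])) ⟨f1 - f2, rfl⟩
    (cx_WD R hx1 hx2 dc1 dc2) hc', R.nl _ _ hQ x hxQ, add_zero]
  rfl

private theorem p2_WD (R : Rul ω V) (D₁ D₂ D₃ : Set S) (p q : S) (h1 : IsArc D₁ p q)
    (h2 : IsArc D₂ p q) (h3 : IsArc D₃ p q) (hV1 : D₁ ⊆ V) (hV2 : D₂ ⊆ V) (hV3 : D₃ ⊆ V)
    (x : S) (hx1 : x ∉ D₁) (hx2 : x ∉ D₂) (hx3 : x ∉ D₃) :
    wd ω D₁ D₂ p q x + wd ω D₂ D₃ p q x = wd ω D₁ D₃ p q x := by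
  obtain ⟨-, dc1, db1⟩ := R.arc D₁ p q h1
  obtain ⟨-, dc2, db2⟩ := R.arc D₂ p q h2
  obtain ⟨-, dc3, db3⟩ := R.arc D₃ p q h3
  unfold wd
  rw [← R.ad _ _ x (ex_WD R hV1 hV2 dc1 dc2 (by rw [db1, db2]))
    (ex_WD R hV2 hV3 dc2 dc3 (by rw [db2, db3])) (cx_WD R hx1 hx2 dc1 dc2)
    (cx_WD R hx2 hx3 dc2 dc3), sub_add_sub_cancel]

/-- exchange of the arcs -/
private theorem xa_WD (R : Rul ω V) {D₁ D₂ : Set S} {p q : S} (h1 : IsArc D₁ p q)
    (h2 : IsArc D₂ p q) (hV1 : D₁ ⊆ V) (hV2 : D₂ ⊆ V) {x : S} (hx1 : x ∉ D₁) (hx2 : x ∉ D₂) :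
    wd ω D₂ D₁ p q x = -wd ω D₁ D₂ p q x := by
  obtain ⟨-, dc1, db1⟩ := R.arc D₁ p q h1
  obtain ⟨-, dc2, db2⟩ := R.arc D₂ p q h2
  unfold wd
  rw [← R.ng _ x (ex_WD R hV1 hV2 dc1 dc2 (by rw [db1, db2])) (cx_WD R hx1 hx2 dc1 dc2), neg_sub]

/-- exchange of the end points -/
private theorem xe_WD (R : Rul ω V) {D₁ D₂ : Set S} {p q : S} (h1 : IsArc D₁ p q)
    (h2 : IsArc D₂ p q) (h1' : IsArc D₁ q p) (h2' : IsArc D₂ q p) (hV1 : D₁ ⊆ V) (hV2 : D₂ ⊆ V)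
    {x : S} (hx1 : x ∉ D₁) (hx2 : x ∉ D₂) : wd ω D₁ D₂ q p x = -wd ω D₁ D₂ p q x := by
  obtain ⟨-, dc1, db1⟩ := R.arc D₁ q p h1'
  obtain ⟨-, dc2, db2⟩ := R.arc D₂ q p h2'
  have e := p1_WD R D₁ D₂ p q h1 h2 hV1 hV2 (-dch D₁ q p) (Submodule.neg_mem _ dc1)
    (-dch D₂ q p) (Submodule.neg_mem _ dc2) (by rw [map_neg, db1, neg_sub])
    (by rw [map_neg, db2, neg_sub]) x hx1 hx2
  have e2 : -dch D₁ q p - -dch D₂ q p = -(dch D₁ q p - dch D₂ q p) := by abel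
  rw [e2, R.ng _ x (ex_WD R hV1 hV2 dc1 dc2 (by rw [db1, db2])) (cx_WD R hx1 hx2 dc1 dc2)] at e
  rw [← e, neg_neg]
  rfl

/-- moving the end point `q` into `D₁ = A ∪ B` -/
private theorem mv_WD (R : Rul ω V) {D₁ D₂ A B : Set S} {p q q' : S} (h1 : IsArc D₁ p q)
    (h2 : IsArc D₂ p q) (hA : IsArc A p q') (hB : IsArc B q' q) (hAB : A ∪ B = D₁)
    (hU : IsArc (D₂ ∪ B) p q') (hV1 : D₁ ⊆ V) (hV2 : D₂ ⊆ V) {x : S} (hx1 : x ∉ D₁)
    (hx2 : x ∉ D₂) : wd ω A (D₂ ∪ B) p q' x = wd ω D₁ D₂ p q x := by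
  have hA1 : A ⊆ D₁ := hAB ▸ subset_union_left
  have hB1 : B ⊆ D₁ := hAB ▸ subset_union_right
  obtain ⟨-, ca, ba⟩ := R.arc A p q' hA
  obtain ⟨-, cb, bb⟩ := R.arc B q' q hB
  obtain ⟨-, c2, b2⟩ := R.arc D₂ p q h2
  have e1 := p1_WD R A (D₂ ∪ B) p q' hA hU (hA1.trans hV1)
    (union_subset hV2 (hB1.trans hV1)) (dch A p q') ca (dch D₂ p q - dch B q' q)
    (Submodule.sub_mem _ (R.mono _ _ _ subset_union_left _ c2)
      (R.mono _ _ _ subset_union_right _ cb)) ba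
    (by rw [map_sub, b2, bb]; abel) x (fun h => hx1 (hA1 h)) (by
      rintro (h | h)
      · exact hx2 h
      · exact hx1 (hB1 h))
  have e2 := p1_WD R D₁ D₂ p q h1 h2 hV1 hV2 (dch A p q' + dch B q' q)
    (Submodule.add_mem _ (R.mono _ _ _ hA1 _ ca) (R.mono _ _ _ hB1 _ cb)) (dch D₂ p q) c2
    (by rw [map_add, ba, bb]; abel) b2 x hx1 hx2
  rw [← e1, ← e2]
  congr 1
  abel

end rules

section moves

variable {S : Type} [TopologicalSpace S]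

/-- equal up to the sign outside `J` -/
private def Eqv (J : Set S) (f g : S → ℤ) : Prop := (∀ x, x ∉ J → g x = f x) ∨ ∀ x, x ∉ J → g x = -f x

omit [TopologicalSpace S] in
private theorem Eqv.trans' {J : Set S} {f g h : S → ℤ} (a : Eqv J f g) (b : Eqv J g h) :
    Eqv J f h := by
  rcases a with a | a <;> rcases b with b | b
  · exact Or.inl fun x hx => (b x hx).trans (a x hx)
  · exact Or.inr fun x hx => by rw [b x hx, a x hx]
  · exact Or.inr fun x hx => by rw [b x hx, a x hx]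
  · exact Or.inl fun x hx => by rw [b x hx, a x hx, neg_neg]

/-- the relation of pairs of points -/
private def Rel2 (ω : S → Ch S 2 → ℤ) (J : Set S) (p q p' q' : S) : Prop :=
  ∀ D₁ D₂ D₁' D₂' : Set S, Spl J p q D₁ D₂ → Spl J p' q' D₁' D₂' →
    Eqv J (fun x => wd ω D₁ D₂ p q x) (fun x => wd ω D₁' D₂' p' q' x)

variable {ω : S → Ch S 2 → ℤ}

private theorem Rel2.trans' {J : Set S} {p q r s t u : S} (a : Rel2 ω J p q r s)
    (h : ∃ D₁ D₂ : Set S, Spl J r s D₁ D₂) (b : Rel2 ω J r s t u) : Rel2 ω J p q t u := by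
  intro D₁ D₂ D₁' D₂' h1 h2
  obtain ⟨E₁, E₂, hE⟩ := h
  exact (a _ _ _ _ h1 hE).trans' (b _ _ _ _ hE h2)

end moves

theorem hWD (hWIN : StWIN) (hAC1 : StAC1) (hARB : StARB) (hSCL : StSCL) (hMON : StMON)
    (_hSDA : StSDA) : StWD := by
  intro S _ _ _ ω V hGR
  obtain ⟨w1, w2, w3, w4, w5⟩ := hWIN S ω hGR.ws hGR.nc
  have R : Rul ω V :=
    { mono := fun A B n h c hc => (hMON S).1 A B n h hc
      arc := fun D p q h => hAC1 S D p q h
      bv := hGR.bv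
      ad := fun z z' x h h' c c' => (w2 z z' x h h' c c').1
      ng := fun z x h c => (w2 z z x h h c c).2.1
      nl := w5 }
  obtain ⟨arb1, arb3, arb4, -, -, -⟩ := hARB
  refine ⟨p1_WD R, p2_WD R, ?_, ?_⟩
  · intro J p q p' q' D₁ D₂ D₁' D₂' hS hS' hJV
    have hJ : IsSCC J := ⟨p, q, D₁, D₂, hS⟩
    obtain ⟨scl1, scl2, -⟩ := hSCL S J hJ
    -- end points are in `J`, different
    have hmem : ∀ a b E₁ E₂, Spl J a b E₁ E₂ → a ∈ J ∧ b ∈ J ∧ a ≠ b := by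
      intro a b E₁ E₂ h
      have h1 := arb1 S E₁ a b h.1
      refine ⟨?_, ?_, h1.2.2.2.2.1⟩
      · rw [← h.2.2.2]; exact Or.inl h1.2.2.1
      · rw [← h.2.2.2]; exact Or.inl h1.2.2.2.1
    have hsub : ∀ a b E₁ E₂, Spl J a b E₁ E₂ → E₁ ⊆ J ∧ E₂ ⊆ J := by
      intro a b E₁ E₂ h
      rw [← h.2.2.2]
      exact ⟨subset_union_left, subset_union_right⟩
    -- exchange of the arcs
    have xa : ∀ a b E₁ E₂, Spl J a b E₁ E₂ →
        Eqv J (fun x => wd ω E₁ E₂ a b x) (fun x => wd ω E₂ E₁ a b x) := by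
      intro a b E₁ E₂ h
      obtain ⟨s1, s2⟩ := hsub a b E₁ E₂ h
      exact Or.inr fun x hx => xa_WD R h.1 h.2.1 (s1.trans hJV) (s2.trans hJV)
        (fun hh => hx (s1 hh)) (fun hh => hx (s2 hh))
    -- the same points
    have same : ∀ a b, Rel2 ω J a b a b := by
      intro a b E₁ E₂ E₁' E₂' h h'
      have c1 := arb1 S E₁' a b h'.1
      have c2 := arb1 S E₂' a b h'.2.1
      rcases scl2 a b E₁ E₂ E₁' E₂' h c1.2.1.isClosed c2.2.1.isClosed h'.2.2.2 h'.2.2.1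
        c1.2.2.2.2.2.2.2.2.1.nonempty c2.2.2.2.2.2.2.2.2.1.nonempty with ⟨e1, e2⟩ | ⟨e1, e2⟩
      · rw [e1, e2]
        exact Or.inl fun x _ => rfl
      · rw [e1, e2]
        exact xa a b E₁ E₂ h
    -- the points exchanged
    have swp : ∀ a b, Rel2 ω J a b b a := by
      intro a b E₁ E₂ E₁' E₂' h h'
      have c1 := (arb1 S E₁ a b h.1).1
      have c2 := (arb1 S E₂ a b h.2.1).1
      obtain ⟨s1, s2⟩ := hsub a b E₁ E₂ h
      have hsp : Spl J b a E₁ E₂ := ⟨c1, c2, by rw [h.2.2.1, pair_comm], h.2.2.2⟩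
      have e1 : Eqv J (fun x => wd ω E₁ E₂ a b x) (fun x => wd ω E₁ E₂ b a x) :=
        Or.inr fun x hx => xe_WD R h.1 h.2.1 c1 c2 (s1.trans hJV) (s2.trans hJV)
          (fun hh => hx (s1 hh)) (fun hh => hx (s2 hh))
      exact e1.trans' (same b a E₁ E₂ E₁' E₂' hsp h')
    -- moving the second point into the first arc
    have mv1 : ∀ a b c E₁ E₂, Spl J a b E₁ E₂ → c ∈ E₁ → c ≠ a → c ≠ b →
        ∃ A B, Spl J a c A B ∧ Eqv J (fun x => wd ω E₁ E₂ a b x) (fun x => wd ω A B a c x) := by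
      intro a b c E₁ E₂ h hc hca hcb
      obtain ⟨A, B, hA, hB, hAB, hAB'⟩ := arb3 S E₁ a b c h.1 hc hca hcb
      obtain ⟨s1, s2⟩ := hsub a b E₁ E₂ h
      have mA := arb1 S A a c hA
      have mB := arb1 S B c b hB
      have m2 := arb1 S E₂ a b h.2.1
      have haB : a ∉ B := by
        intro hh
        have : a ∈ A ∩ B := ⟨mA.2.2.1, hh⟩
        rw [hAB', mem_singleton_iff] at this
        exact hca this.symm
      have hbA : b ∉ A := by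
        intro hh
        have : b ∈ A ∩ B := ⟨hh, mB.2.2.2.1⟩
        rw [hAB', mem_singleton_iff] at this
        exact hcb this.symm
      have hA1 : A ⊆ E₁ := hAB ▸ subset_union_left
      have hB1 : B ⊆ E₁ := hAB ▸ subset_union_right
      have i1 : E₂ ∩ B = {b} := by
        ext y
        constructor
        · rintro ⟨hy2, hyB⟩
          have : y ∈ E₁ ∩ E₂ := ⟨hB1 hyB, hy2⟩
          rw [h.2.2.1] at this
          rcases this with rfl | hyb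
          · exact absurd hyB haB
          · exact hyb
        · intro hy
          rw [mem_singleton_iff] at hy
          rw [hy]
          exact ⟨m2.2.2.2.1, mB.2.2.2.1⟩
      have hU : IsArc (E₂ ∪ B) a c := arb4 S E₂ B a c b h.2.1 mB.1 i1
      have i2 : A ∩ (E₂ ∪ B) = {a, c} := by
        ext y
        constructor
        · rintro ⟨hyA, hy | hy⟩
          · have : y ∈ E₁ ∩ E₂ := ⟨hA1 hyA, hy⟩
            rw [h.2.2.1] at this
            rcases this with hya | hyb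
            · exact Or.inl hya
            · rw [mem_singleton_iff] at hyb
              rw [hyb] at hyA
              exact absurd hyA hbA
          · have : y ∈ A ∩ B := ⟨hyA, hy⟩
            rw [hAB'] at this
            exact Or.inr this
        · rintro (hy | hy)
          · rw [hy]
            exact ⟨mA.2.2.1, Or.inl m2.2.2.1⟩
          · rw [mem_singleton_iff] at hy
            rw [hy]
            exact ⟨mA.2.2.2.1, Or.inr mB.2.2.1⟩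
      refine ⟨A, E₂ ∪ B, ⟨hA, hU, i2, ?_⟩, Or.inl fun x hx => ?_⟩
      · rw [← h.2.2.2, ← hAB, union_comm E₂ B, ← union_assoc]
      · exact mv_WD R h.1 h.2.1 hA hB hAB hU (s1.trans hJV) (s2.trans hJV)
          (fun hh => hx (s1 hh)) (fun hh => hx (s2 hh))
    have mv : ∀ a b c, c ∈ J → c ≠ a → Rel2 ω J a b a c := by
      intro a b c hc hca E₁ E₂ E₁' E₂' h h'
      by_cases hcb : c = b
      · subst hcb
        exact same a c E₁ E₂ E₁' E₂' h h'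
      · rw [← h.2.2.2] at hc
        rcases hc with hc | hc
        · obtain ⟨A, B, hAB, e⟩ := mv1 a b c E₁ E₂ h hc hca hcb
          exact e.trans' (same a c A B E₁' E₂' hAB h')
        · have hx : Spl J a b E₂ E₁ := ⟨h.2.1, h.1, by rw [inter_comm, h.2.2.1],
            by rw [union_comm, h.2.2.2]⟩
          obtain ⟨A, B, hAB, e⟩ := mv1 a b c E₂ E₁ hx hc hca hcb
          exact ((xa a b E₁ E₂ h).trans' e).trans' (same a c A B E₁' E₂' hAB h')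
    obtain ⟨mp, mq, mpq⟩ := hmem p q D₁ D₂ hS
    obtain ⟨mp', mq', mpq'⟩ := hmem p' q' D₁' D₂' hS'
    by_cases hqp : q' = p
    · subst hqp
      have e1 := mv q' q p' mp' mpq'
      have e2 := e1.trans' (scl1 q' mq' p' mp' (Ne.symm mpq')) (swp q' p')
      exact e2 D₁ D₂ D₁' D₂' hS hS'
    · have e1 := mv p q q' mq' hqp
      have e2 := e1.trans' (scl1 p mp q' mq' (Ne.symm hqp)) (swp p q')
      have e3 := e2.trans' (scl1 q' mq' p mp hqp) (mv q' p p' mp' mpq')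
      have e4 := e3.trans' (scl1 q' mq' p' mp' (Ne.symm mpq')) (swp q' p')
      exact e4 D₁ D₂ D₁' D₂' hS hS'
  · intro J O₁ O _ _ hJO hbd x hx
    obtain ⟨hxJ, p, q, D₁, D₂, hS, hw⟩ := hx
    by_contra hxO
    obtain ⟨-, dc1, db1⟩ := R.arc D₁ p q hS.1
    obtain ⟨-, dc2, db2⟩ := R.arc D₂ p q hS.2.1
    have s1 : D₁ ⊆ O₁ := by
      refine subset_trans ?_ hJO
      rw [← hS.2.2.2]
      exact subset_union_left
    have s2 : D₂ ⊆ O₁ := by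
      refine subset_trans ?_ hJO
      rw [← hS.2.2.2]
      exact subset_union_right
    obtain ⟨e, he, hbe⟩ := hbd (dch D₁ p q - dch D₂ p q)
      (Submodule.sub_mem _ (R.mono _ _ _ s1 _ dc1) (R.mono _ _ _ s2 _ dc2))
      (by rw [map_sub, db1, db2, sub_self])
    apply hw
    unfold wd
    rw [← hbe]
    exact R.nl e O he x hxO

end Pool.Agent.Helper86.TW
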